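import Mathlib

/-!
# MP_ddd335_co: the WBS criterion

Three classes of vertices: white (`some true`), black (`some false`) and sources (`none`), placed on a
line. Sources are later than all their neighbours. The two-page condition with the exemption
(`hbook`) then gives a representation of the complement by segments.
-/

set_option autoImplicit false

namespace Pool.Agent.Lib.H92W

/-- The point with abscissa `s` on the line of slope `X` and intercept `-Y`. -/
def pt (X Y s : ℝ) : ℝ × ℝ := (s, X * s - Y)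

lemma segment_pt (X Y a b : ℝ) (h : a ≤ b) :
    segment ℝ (pt X Y a) (pt X Y b) = {q | ∃ s, a ≤ s ∧ s ≤ b ∧ q = pt X Y s} := by
  ext q
  constructor
  · rintro ⟨u, v, hu, hv, huv, rfl⟩
    refine ⟨u * a + v * b, ?_, ?_, ?_⟩
    · have hu' : u = 1 - v := by linarith
      have := mul_nonneg hv (sub_nonneg.2 h)
      subst hu'
      linarith
    · have hv' : v = 1 - u := by linarith
      have := mul_nonneg hu (sub_nonneg.2 h)
      subst hv'
      linarith
    · ext
      · simp [pt]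
      · simp only [pt, Prod.smul_mk, smul_eq_mul, Prod.mk_add_mk]
        have : u = 1 - v := by linarith
        subst this
        ring
  · rintro ⟨s, h1, h2, rfl⟩
    rcases eq_or_lt_of_le h with hab | hab
    · have hs : s = a := le_antisymm (hab ▸ h2) h1
      subst hs
      subst hab
      exact left_mem_segment ℝ _ _
    · refine ⟨(b - s) / (b - a), (s - a) / (b - a), ?_, ?_, ?_, ?_⟩
      · apply div_nonneg <;> linarith
      · apply div_nonneg <;> linarith
      · have : b - a ≠ 0 := by linarith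
        field_simp
        ring
      · have : b - a ≠ 0 := by linarith
        ext
        · simp only [pt, Prod.smul_mk, smul_eq_mul, Prod.mk_add_mk]
          field_simp
          ring
        · simp only [pt, Prod.smul_mk, smul_eq_mul, Prod.mk_add_mk]
          field_simp
          ring

lemma inter_iff (X Y a b X' Y' a' b' : ℝ) (h : a ≤ b) (h' : a' ≤ b') (hX : X < X') :
    (segment ℝ (pt X Y a) (pt X Y b) ∩ segment ℝ (pt X' Y' a') (pt X' Y' b')).Nonempty ↔
      (a ≤ (Y' - Y) / (X' - X) ∧ (Y' - Y) / (X' - X) ≤ b) ∧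
      (a' ≤ (Y' - Y) / (X' - X) ∧ (Y' - Y) / (X' - X) ≤ b') := by
  have hd : 0 < X' - X := by linarith
  rw [segment_pt X Y a b h, segment_pt X' Y' a' b' h']
  constructor
  · rintro ⟨q, ⟨s, h1, h2, rfl⟩, ⟨t, h3, h4, h5⟩⟩
    simp only [pt, Prod.mk.injEq] at h5
    obtain ⟨rfl, h6⟩ := h5
    have hs : (Y' - Y) / (X' - X) = s := by
      rw [div_eq_iff hd.ne']
      linarith
    rw [hs]
    exact ⟨⟨h1, h2⟩, h3, h4⟩
  · rintro ⟨⟨h1, h2⟩, h3, h4⟩
    refine ⟨pt X Y ((Y' - Y) / (X' - X)), ⟨_, h1, h2, rfl⟩, ⟨_, h3, h4, ?_⟩⟩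
    simp only [pt, Prod.mk.injEq, true_and]
    field_simp
    ring

/-- The base of the exponential scale. -/
noncomputable def m : ℝ := 1 / 4

lemma m_pos : 0 < m := by norm_num [m]
lemma m_lt : m < 1 := by norm_num [m]

lemma pow_m_pos (k : ℕ) : 0 < m ^ k := pow_pos m_pos k

lemma pow_m_anti {a b : ℕ} (h : a ≤ b) : m ^ b ≤ m ^ a :=
  pow_le_pow_of_le_one m_pos.le m_lt.le h

lemma pow_m_succ {a b : ℕ} (h : a + 1 ≤ b) : m ^ b ≤ m ^ a / 4 := by
  have := pow_m_anti h
  rw [pow_succ] at this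
  have h4 : m = 1 / 4 := rfl
  rw [h4] at this ⊢
  linarith

/-- The central inequality. -/
lemma key {Tu Tv Du Dv Lv : ℕ} (hT : Tu + 2 ≤ Tv) (hDv : Tv ≤ Dv) (hL : Lv ≤ Tv) :
    ((Tv < Du ∧ Lv ≤ Tu) → m ^ (Tv - Lv + 1) * (m ^ Tu - m ^ Dv) < m ^ Tv - m ^ Du) ∧
    ((Du < Tv ∨ Tu + 2 ≤ Lv) → m ^ Tv - m ^ Du ≤ m ^ (Tv - Lv + 1) * (m ^ Tu - m ^ Dv)) := by
  have hβ : 0 < m ^ Tu - m ^ Dv := by
    have := pow_m_succ (show Tu + 1 ≤ Dv by omega)
    have := pow_m_pos Tu
    linarith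
  constructor
  · rintro ⟨h1, h2⟩
    have e1 : m ^ Du ≤ m ^ Tv / 4 := pow_m_succ (by omega)
    have e2 : m ^ (Tv - Lv + 1) * m ^ Tu ≤ m ^ Tv / 4 := by
      rw [← pow_add]
      exact pow_m_succ (by omega)
    have e3 : 0 < m ^ (Tv - Lv + 1) * m ^ Dv := mul_pos (pow_m_pos _) (pow_m_pos _)
    have := pow_m_pos Tv
    nlinarith
  · rintro (h | h)
    · have e1 : m ^ Tv ≤ m ^ Du / 4 := pow_m_succ (by omega)
      have := pow_m_pos Du
      have e2 : 0 < m ^ (Tv - Lv + 1) * (m ^ Tu - m ^ Dv) := mul_pos (pow_m_pos _) hβ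
      linarith
    · have e1 : m ^ Dv ≤ m ^ Tu / 4 := pow_m_succ (by omega)
      have e2 : m ^ Tv ≤ m ^ (Tv - Lv + 1) * m ^ Tu / 4 := by
        rw [← pow_add]
        exact pow_m_succ (by omega)
      have e3 := pow_m_pos Du
      have e4 := pow_m_pos (Tv - Lv + 1)
      have e5 : m ^ (Tv - Lv + 1) * m ^ Dv ≤ m ^ (Tv - Lv + 1) * (m ^ Tu / 4) :=
        mul_le_mul_of_nonneg_left e1 e4.le
      have e6 : 0 < m ^ (Tv - Lv + 1) * m ^ Tu := mul_pos e4 (pow_m_pos _)
      nlinarith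

/-- The abscissa `P / (P + Q)` against the left end `-ρ / (1 - ρ)`. -/
lemma lo_le_iff {P Q ρ : ℝ} (hρ1 : ρ < 1) (h : 0 < P + Q) :
    -ρ / (1 - ρ) ≤ P / (P + Q) ↔ -P ≤ ρ * Q := by
  have h1 : 0 < 1 - ρ := by linarith
  rw [div_le_div_iff₀ h1 h]
  constructor <;> intro h <;> nlinarith

/-- The abscissa `P / (P + Q)` against the right end `1 / (1 - ρ)`. -/
lemma le_hi_iff {P Q ρ : ℝ} (hρ1 : ρ < 1) (h : 0 < P + Q) :
    P / (P + Q) ≤ 1 / (1 - ρ) ↔ -Q ≤ ρ * P := by
  have h1 : 0 < 1 - ρ := by linarith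
  rw [div_le_div_iff₀ h h1]
  constructor <;> intro h <;> nlinarith

/-- The comparison of an earlier white vertex `u` (coordinates `(m ^ Tu, m ^ Du)`) with a later vertex
`v` (coordinates `(p, q)`) in the coordinates of the windows; the case of an earlier black vertex is the
mirror image. `ρ₁ = ρW u`, `ρ₂ = ρB u`, `ρ₃ = ρW v`, `ρ₄ = ρB v`. -/
lemma pair {Tu Tv Du Dv Lv : ℕ} (hT : Tu + 2 ≤ Tv) (hDu : Tu ≤ Du) (hDv : Tv ≤ Dv) (hL : Lv ≤ Tv)
    {p q ρ₁ ρ₂ ρ₃ ρ₄ : ℝ} (adj : Prop)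
    (hpq : (p = m ^ Dv ∧ q = m ^ Tv ∧ ρ₃ = m ^ (Tv - Lv + 1) ∧ (adj → Tv < Du ∧ Lv ≤ Tu) ∧
        (¬ adj → Du < Tv ∨ Tu + 2 ≤ Lv)) ∨
      (p = m ^ Tv ∧ q = m ^ Dv ∧ ρ₃ = m ∧ ¬ adj))
    (h1 : ρ₁ = m) (h2 : 0 < ρ₂ ∧ ρ₂ < 1) (h4 : 0 < ρ₄ ∧ ρ₄ < 1) :
    0 < m ^ Tu - p + (m ^ Du - q) ∧
    (¬ adj ↔ (-(m ^ Tu - p) ≤ ρ₂ * (m ^ Du - q) ∧ -(m ^ Du - q) ≤ ρ₁ * (m ^ Tu - p)) ∧
      (-(m ^ Tu - p) ≤ ρ₄ * (m ^ Du - q) ∧ -(m ^ Du - q) ≤ ρ₃ * (m ^ Tu - p))) := by
  have e1 : m ^ Tv ≤ m ^ Tu / 4 / 4 := by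
    have a1 := pow_m_succ (show Tu + 1 ≤ Tu + 1 from le_rfl)
    have a2 := pow_m_succ (show Tu + 1 + 1 ≤ Tv by omega)
    linarith
  have e2 : m ^ Dv ≤ m ^ Tv := pow_m_anti hDv
  have p1 := pow_m_pos Tu
  have p2 := pow_m_pos Du
  have p3 := pow_m_pos Tv
  have p4 := pow_m_pos Dv
  have hm4 : ∀ x : ℝ, m * x = x / 4 := fun x => by rw [show m = 1 / 4 from rfl]; ring
  have hp : p ≤ m ^ Tv := by rcases hpq with h | h <;> rw [h.1]; exact e2
  have hq : q ≤ m ^ Tv := by rcases hpq with h | h <;> rw [h.2.1]; exact e2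
  have hP : 15 * m ^ Tv ≤ m ^ Tu - p := by linarith
  have hQ : -(m ^ Du - q) ≤ m ^ Tv := by linarith
  have hb : ∀ ρ : ℝ, 0 < ρ → ρ < 1 → -(m ^ Tu - p) ≤ ρ * (m ^ Du - q) := by
    intro ρ h0 h1
    nlinarith
  have hw : -(m ^ Du - q) ≤ ρ₁ * (m ^ Tu - p) := by
    rw [h1, hm4]
    linarith
  refine ⟨by linarith, ?_⟩
  rcases hpq with ⟨rfl, rfl, rfl, ha1, ha2⟩ | ⟨rfl, rfl, rfl, ha⟩
  · obtain ⟨k1, k2⟩ := key hT hDv hL (Du := Du)
    constructor
    · intro hn
      have := k2 (ha2 hn)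
      exact ⟨⟨hb _ h2.1 h2.2, hw⟩, hb _ h4.1 h4.2, by linarith⟩
    · rintro ⟨_, _, h5⟩ had
      have := k1 (ha1 had)
      linarith
  · refine ⟨fun _ => ⟨⟨hb _ h2.1 h2.2, hw⟩, hb _ h4.1 h4.2, ?_⟩, fun _ => ha⟩
    rw [hm4]
    linarith

/-- **The WBS criterion.** Let `G` be a finite graph whose vertices are white (`some true`), black
(`some false`) or sources (`none`), no edge inside a class, placed on a line such that every source is later
than all its neighbours and such that, whenever `z < u < v < w`, `z, u` have the same colour (white or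
black), `v, w` are not of this colour, and `zv`, `uw` are edges, `uv` is an edge. Then the complement of
`G` is the intersection graph of segments in the plane. -/
theorem wbs (V : Type) [Fintype V] (G : SimpleGraph V) (col : V → Option Bool) (pos : V → ℕ)
    (hpos : Function.Injective pos)
    (hcol : ∀ u v, G.Adj u v → col u ≠ col v)
    (hsrc : ∀ s v, col s = none → G.Adj s v → pos v < pos s)
    (hbook : ∀ z u v w, pos z < pos u → pos u < pos v → pos v < pos w → col u ≠ none →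
      col z = col u → col v ≠ col u → col w ≠ col u → G.Adj z v → G.Adj u w → G.Adj u v) :
    ∃ s : V → (ℝ × ℝ) × (ℝ × ℝ),
      (∀ v, (s v).1 ≠ (s v).2) ∧
      ∀ u v, u ≠ v →
        (Gᶜ.Adj u v ↔
          (segment ℝ (s u).1 (s u).2 ∩ segment ℝ (s v).1 (s v).2).Nonempty) := by
  classical
  have hl : ∀ (v : V) (c : Bool), ∃ l, l ≤ pos v ∧
      (∀ w, G.Adj v w → pos w < pos v → col w = some c → l ≤ pos w) ∧
      (l = pos v ∨ ∃ w, G.Adj v w ∧ pos w = l ∧ pos w < pos v ∧ col w = some c) := by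
    intro v c
    obtain ⟨w, hw, hmin⟩ := (insert v (Finset.univ.filter
      (fun w => G.Adj v w ∧ pos w < pos v ∧ col w = some c))).exists_min_image pos ⟨v, by simp⟩
    refine ⟨pos w, hmin v (by simp), fun x hx hx' hx'' => hmin x (by simp [hx, hx', hx'']), ?_⟩
    simp only [Finset.mem_insert, Finset.mem_filter, Finset.mem_univ, true_and] at hw
    rcases hw with rfl | hw
    · left; rfl
    · right; exact ⟨w, hw.1, rfl, hw.2.1, hw.2.2⟩
  have hr : ∀ v, ∃ r, pos v ≤ r ∧ (∀ w, G.Adj v w → pos v < pos w → pos w ≤ r) ∧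
      (r = pos v ∨ ∃ w, G.Adj v w ∧ pos w = r ∧ pos v < pos w) := by
    intro v
    obtain ⟨w, hw, hmax⟩ := (insert v (Finset.univ.filter
      (fun w => G.Adj v w ∧ pos v < pos w))).exists_max_image pos ⟨v, by simp⟩
    refine ⟨pos w, hmax v (by simp), fun x hx hx' => hmax x (by simp [hx, hx']), ?_⟩
    simp only [Finset.mem_insert, Finset.mem_filter, Finset.mem_univ, true_and] at hw
    rcases hw with rfl | hw
    · left; rfl
    · right; exact ⟨w, hw.1, rfl, hw.2⟩
  choose l hl1 hl2 hl3 using hl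
  choose r hr1 hr2 hr3 using hr
  -- births, deaths, thresholds
  obtain ⟨T, hT⟩ : ∃ T : V → ℕ, ∀ v, T v = 2 * pos v := ⟨_, fun _ => rfl⟩
  obtain ⟨D, hD⟩ : ∃ D : V → ℕ, ∀ v, D v = if col v = none then 2 * pos v else 2 * r v + 1 :=
    ⟨_, fun _ => rfl⟩
  obtain ⟨L, hL⟩ : ∃ L : Bool → V → ℕ, ∀ c v, L c v = 2 * l v c := ⟨_, fun _ _ => rfl⟩
  have hTD : ∀ v, T v ≤ D v := fun v => by
    rw [hT, hD]
    have := hr1 v
    split_ifs <;> omega
  have hLT : ∀ c v, L c v ≤ T v := fun c v => by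
    rw [hT, hL]; have := hl1 v c; omega
  have hadj : ∀ u v c, pos u < pos v → col u = some c → G.Adj u v → T v < D u ∧ L c v ≤ T u := by
    intro u v c huv hc h
    rw [hT, hD, hT, hL, if_neg (by rw [hc]; exact Option.some_ne_none c)]
    have h1 := hr2 u v h huv
    have h2 := hl2 v c u h.symm huv hc
    omega
  have hnadj : ∀ u v c, pos u < pos v → col u = some c → col v ≠ some c → ¬ G.Adj u v →
      D u < T v ∨ T u + 2 ≤ L c v := by
    intro u v c huv hcu hcv h
    by_contra hcon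
    push Not at hcon
    rw [hT, hD, hT, hL, if_neg (by rw [hcu]; exact Option.some_ne_none c)] at hcon
    obtain ⟨h1, h2⟩ := hcon
    have h1' : pos v ≤ r u := by omega
    have h2' : l v c ≤ pos u := by omega
    rcases hr3 u with hru | ⟨w, hw1, hw2, hw3⟩
    · omega
    rcases hl3 v c with hlv | ⟨z, hz1, hz2, hz3, hz4⟩
    · omega
    apply h
    rcases eq_or_lt_of_le (show pos v ≤ pos w by omega) with h3 | h3
    · rw [hpos h3]; exact hw1
    rcases eq_or_lt_of_le (show pos z ≤ pos u by omega) with h4 | h4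
    · rw [← hpos h4]; exact hz1.symm
    exact hbook z u v w h4 huv h3 (by rw [hcu]; exact Option.some_ne_none c) (by rw [hz4, hcu])
      (by rw [hcu]; exact hcv) (fun h5 => hcol u w hw1 h5.symm) hz1.symm hw1
  obtain ⟨co, hco⟩ : ∃ co : Bool → V → ℝ, ∀ c v, co c v = if col v = some (!c) then m ^ D v
      else m ^ T v := ⟨_, fun _ _ => rfl⟩
  obtain ⟨ρ, hρ⟩ : ∃ ρ : Bool → V → ℝ, ∀ c v, ρ c v = m ^ (T v - L c v + 1) :=
    ⟨_, fun _ _ => rfl⟩
  have hρ0 : ∀ c v, 0 < ρ c v := fun c v => by rw [hρ]; exact pow_m_pos _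
  have hρ1 : ∀ c v, ρ c v < 1 := fun c v => by
    rw [hρ]; exact pow_lt_one₀ m_pos.le m_lt (by omega)
  -- a vertex has no neighbour of its own colour
  have hρm : ∀ c v, col v = some c → ρ c v = m := by
    intro c v hc
    have h1 : l v c = pos v := by
      rcases hl3 v c with h1 | ⟨w, hw1, _, _, hw4⟩
      · exact h1
      · exact absurd (hc.trans hw4.symm) (hcol v w hw1)
    rw [hρ, hT, hL, h1, Nat.sub_self, zero_add, pow_one]
  have hgen : ∀ (u v : V) (c : Bool), pos u < pos v → col u = some c →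
      0 < co c u - co c v + (co (!c) u - co (!c) v) ∧
      (¬ G.Adj u v ↔
        (-(co c u - co c v) ≤ ρ (!c) u * (co (!c) u - co (!c) v) ∧
          -(co (!c) u - co (!c) v) ≤ ρ c u * (co c u - co c v)) ∧
        (-(co c u - co c v) ≤ ρ (!c) v * (co (!c) u - co (!c) v) ∧
          -(co (!c) u - co (!c) v) ≤ ρ c v * (co c u - co c v))) := by
    intro u v c huv hcu
    have hT2 : T u + 2 ≤ T v := by rw [hT, hT]; omega
    have e1 : co c u = m ^ T u := by
      rw [hco, hcu, if_neg (by simp)]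
    have e2 : co (!c) u = m ^ D u := by
      rw [hco, hcu, if_pos (by simp)]
    rw [e1, e2]
    refine pair (Tv := T v) (Dv := D v) (Lv := L c v) hT2 (hTD u) (hTD v) (hLT c v) (G.Adj u v) ?_
      (hρm c u hcu) ⟨hρ0 _ _, hρ1 _ _⟩ ⟨hρ0 _ _, hρ1 _ _⟩
    by_cases hcv : col v = some c
    · right
      refine ⟨?_, ?_, hρm c v hcv, fun h => hcol u v h (hcu.trans hcv.symm)⟩
      · rw [hco, hcv, if_neg (by simp)]
      · rw [hco, hcv, if_pos (by simp)]
    · left
      refine ⟨?_, ?_, hρ c v, hadj u v c huv hcu, hnadj u v c huv hcu hcv⟩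
      · rcases h : col v with _ | b
        · rw [hco, h, if_neg (by simp), hD, if_pos h, hT]
        · have hb : b = !c := by
            rw [h] at hcv
            revert hcv
            cases b <;> cases c <;> simp
          rw [hco, h, if_pos (by rw [hb])]
      · rw [hco, if_neg]
        rw [Bool.not_not]
        exact hcv
  have core : ∀ u v, pos u < pos v →
      0 < co true u - co true v + (co false u - co false v) ∧
      (¬ G.Adj u v ↔
        (-(co true u - co true v) ≤ ρ false u * (co false u - co false v) ∧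
          -(co false u - co false v) ≤ ρ true u * (co true u - co true v)) ∧
        (-(co true u - co true v) ≤ ρ false v * (co false u - co false v) ∧
          -(co false u - co false v) ≤ ρ true v * (co true u - co true v))) := by
    intro u v huv
    rcases h : col u with _ | c
    · have hT2 : T u + 2 ≤ T v := by rw [hT, hT]; omega
      have e1 : ∀ c, co c u = m ^ T u := fun c => by rw [hco, h, if_neg (by simp)]
      have e2 : ∀ c, co c v ≤ m ^ T v := fun c => by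
        rw [hco]
        split_ifs
        · exact pow_m_anti (hTD v)
        · exact le_rfl
      have e3 : m ^ T v ≤ m ^ T u / 4 := pow_m_succ (by omega)
      have e4 := pow_m_pos (T u)
      have e5 : ∀ c, 0 < co c u - co c v := fun c => by
        have := e2 c
        rw [e1]
        linarith
      have e6 : ∀ c d w, -(co c u - co c v) ≤ ρ d w * (co d u - co d v) := fun c d w => by
        have h1 := mul_pos (hρ0 d w) (e5 d)
        have h2 := e5 c
        linarith
      have hn : ¬ G.Adj u v := fun h' => absurd (hsrc u v h h') (by omega)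
      exact ⟨by linarith [e5 true, e5 false], fun _ => ⟨⟨e6 _ _ _, e6 _ _ _⟩, e6 _ _ _, e6 _ _ _⟩,
        fun _ => hn⟩
    · obtain ⟨g1, g2⟩ := hgen u v c huv h
      cases c
      · simp only [Bool.not_false] at g1 g2
        refine ⟨by linarith, g2.trans ⟨?_, ?_⟩⟩
        · rintro ⟨⟨a1, a2⟩, a3, a4⟩
          exact ⟨⟨a2, a1⟩, a4, a3⟩
        · rintro ⟨⟨a1, a2⟩, a3, a4⟩
          exact ⟨⟨a2, a1⟩, a4, a3⟩
      · exact ⟨g1, g2⟩
  obtain ⟨X, hX⟩ : ∃ X : V → ℝ, ∀ v, X v = -(co true v + co false v) := ⟨_, fun _ => rfl⟩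
  obtain ⟨Y, hY⟩ : ∃ Y : V → ℝ, ∀ v, Y v = -co true v := ⟨_, fun _ => rfl⟩
  obtain ⟨lo, hlo⟩ : ∃ lo : V → ℝ, ∀ v, lo v = -ρ false v / (1 - ρ false v) := ⟨_, fun _ => rfl⟩
  obtain ⟨hi, hhi⟩ : ∃ hi : V → ℝ, ∀ v, hi v = 1 / (1 - ρ true v) := ⟨_, fun _ => rfl⟩
  have hlohi : ∀ v, lo v < hi v := by
    intro v
    rw [hlo, hhi]
    have h1 : -ρ false v / (1 - ρ false v) ≤ 0 := by
      apply div_nonpos_of_nonpos_of_nonneg
      · linarith [hρ0 false v]
      · linarith [hρ1 false v]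
    have h2 : 0 < 1 / (1 - ρ true v) := by
      apply one_div_pos.mpr
      linarith [hρ1 true v]
    linarith
  have main : ∀ u v, pos u < pos v → (¬ G.Adj u v ↔
      (segment ℝ (pt (X u) (Y u) (lo u)) (pt (X u) (Y u) (hi u)) ∩
        segment ℝ (pt (X v) (Y v) (lo v)) (pt (X v) (Y v) (hi v))).Nonempty) := by
    intro u v huv
    obtain ⟨c1, c2⟩ := core u v huv
    have hXlt : X u < X v := by rw [hX, hX]; linarith
    rw [inter_iff _ _ _ _ _ _ _ _ (hlohi u).le (hlohi v).le hXlt, c2]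
    have hXX : X v - X u = co true u - co true v + (co false u - co false v) := by
      rw [hX, hX]; ring
    have hYY : Y v - Y u = co true u - co true v := by
      rw [hY, hY]; ring
    rw [hXX, hYY, hlo, hlo, hhi, hhi, lo_le_iff (hρ1 _ _) c1, lo_le_iff (hρ1 _ _) c1,
      le_hi_iff (hρ1 _ _) c1, le_hi_iff (hρ1 _ _) c1]
  refine ⟨fun v => (pt (X v) (Y v) (lo v), pt (X v) (Y v) (hi v)), fun v h => ?_, ?_⟩
  · have h1 : lo v = hi v := congrArg Prod.fst h
    exact absurd h1 (hlohi v).ne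
  · intro u v huv
    rw [SimpleGraph.compl_adj]
    rcases lt_or_gt_of_ne (fun h => huv (hpos h)) with h | h
    · rw [← main u v h]
      exact ⟨fun h => h.2, fun h => ⟨huv, h⟩⟩
    · rw [Set.inter_comm, ← main v u h, G.adj_comm]
      exact ⟨fun h => h.2, fun h => ⟨huv, h⟩⟩

end Pool.Agent.Lib.H92W
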